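import Pool.Agent.Helper57.BE.Grp

/-!
# Bounds for the function `Φ`, and Bessel's inequality
-/

set_option autoImplicit false

open scoped Classical

namespace BE57

/-- the product of `(p + 1) / (p - 1)` over the primes `p ∣ n` -/
noncomputable def kap (n : ℕ) : ℚ := ∏ p ∈ n.primeFactors, ((p : ℚ) + 1) / ((p : ℚ) - 1)

theorem kap_fac {n p : ℕ} (hp : p ∈ n.primeFactors) : 1 ≤ ((p : ℚ) + 1) / ((p : ℚ) - 1) := by
  have h1 : 2 ≤ p := (Nat.prime_of_mem_primeFactors hp).two_le
  have h2 : (2 : ℚ) ≤ p := by exact_mod_cast h1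
  rw [one_le_div (by linarith)]
  linarith

theorem kap_pos (n : ℕ) : 0 < kap n :=
  Finset.prod_pos fun _ hp => lt_of_lt_of_le one_pos (kap_fac hp)

theorem kap_mono {m n : ℕ} (h : m ∣ n) (hn : n ≠ 0) : kap m ≤ kap n := by
  have hs : m.primeFactors ⊆ n.primeFactors := Nat.primeFactors_mono h hn
  unfold kap
  rw [← Finset.prod_sdiff hs]
  refine le_mul_of_one_le_left (kap_pos m).le ?_
  refine Finset.prod_induction _ (fun x : ℚ => 1 ≤ x) (fun a b ha hb => one_le_mul_of_one_le_of_one_le ha hb)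
    le_rfl fun p hp => kap_fac (Finset.mem_sdiff.mp hp).1

variable {G : Type} [Group G] [Fintype G]

theorem card_zpowers_pow (g : G) {m : ℕ} (hm : m ∣ orderOf g) :
    (Nat.card (Subgroup.zpowers (g ^ m)) : ℚ) = orderOf g * (m : ℚ)⁻¹ := by
  have hn : orderOf g ≠ 0 := (orderOf_pos g).ne'
  have hm0 : m ≠ 0 := fun h => hn (by rw [h] at hm; exact Nat.eq_zero_of_zero_dvd hm)
  have hm1 : (m : ℚ) ≠ 0 := by exact_mod_cast hm0
  rw [Nat.card_zpowers, orderOf_pow_of_dvd hm0 hm, Nat.cast_div hm hm1]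
  rfl

theorem Psi_le (f : Subgroup G → ℤ) (B : ℚ) (g : G)
    (hB : ∀ m : ℕ, |(f (Subgroup.zpowers (g ^ m)) : ℚ)| ≤ B) :
    |(Psi f g : ℚ)| ≤ orderOf g * (∏ p ∈ (orderOf g).primeFactors, (1 + (p : ℚ)⁻¹)) * B := by
  have hB0 : 0 ≤ B := (abs_nonneg _).trans (hB 1)
  unfold Psi
  push_cast
  refine (Finset.abs_sum_le_sum_abs _ _).trans ?_
  rw [Finset.prod_one_add, Finset.mul_sum, Finset.sum_mul]
  refine Finset.sum_le_sum fun S hS => ?_
  rw [Finset.mem_powerset] at hS
  rw [abs_mul, abs_pow, abs_neg, abs_one, one_pow, one_mul, abs_mul,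
    card_zpowers_pow g (prod_dvd_self hS)]
  push_cast
  rw [Finset.prod_inv_distrib]
  have h1 : (0 : ℚ) ≤ (orderOf g : ℚ) * (∏ p ∈ S, (p : ℚ))⁻¹ := by positivity
  rw [abs_of_nonneg h1]
  exact mul_le_mul_of_nonneg_left (hB _) h1

theorem Phi_le (f : Subgroup G → ℤ) (B : ℚ) (g : G)
    (hB : ∀ m : ℕ, |(f (Subgroup.zpowers (g ^ m)) : ℚ)| ≤ B) :
    |Phi f g| ≤ kap (orderOf g) * B := by
  have hB0 : 0 ≤ B := (abs_nonneg _).trans (hB 1)
  unfold Phi
  rw [abs_div, abs_of_pos (tot_pos g), div_le_iff₀ (tot_pos g)]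
  refine (Psi_le f B g hB).trans (le_of_eq ?_)
  rw [Nat.totient_eq_mul_prod_factors]
  unfold kap
  have h1 : (∏ p ∈ (orderOf g).primeFactors, (1 + (p : ℚ)⁻¹)) =
      (∏ p ∈ (orderOf g).primeFactors, ((p : ℚ) + 1) / ((p : ℚ) - 1)) *
        ∏ p ∈ (orderOf g).primeFactors, (1 - (p : ℚ)⁻¹) := by
    rw [← Finset.prod_mul_distrib]
    refine Finset.prod_congr rfl fun p hp => ?_
    have h1 : 2 ≤ p := (Nat.prime_of_mem_primeFactors hp).two_le
    have h2 : (2 : ℚ) ≤ p := by exact_mod_cast h1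
    have h3 : (p : ℚ) ≠ 0 := by linarith
    have h4 : (p : ℚ) - 1 ≠ 0 := by linarith
    field_simp
  rw [h1]
  ring

theorem Phi_le_all (f : Subgroup G → ℤ) (B : ℚ)
    (hB : ∀ D : Subgroup G, IsCyclic D → |(f D : ℚ)| ≤ B) (g : G) :
    |Phi f g| ≤ kap (Nat.card G) * B := by
  have hB0 : 0 ≤ B := (abs_nonneg _).trans (hB ⊥ inferInstance)
  refine (Phi_le f B g fun m => hB _ inferInstance).trans ?_
  exact mul_le_mul_of_nonneg_right (kap_mono (orderOf_dvd_natCard g) Nat.card_pos.ne') hB0

/-- the value at every subgroup is bounded -/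
theorem bound_all {f : Subgroup G → ℤ} (hf : Addv f) (B : ℚ)
    (hB : ∀ D : Subgroup G, IsCyclic D → |(f D : ℚ)| ≤ B) (H : Subgroup G) :
    |(f H : ℚ)| ≤ kap (Nat.card G) * B := by
  have h1 := mean hf H
  have hc : (0 : ℚ) < (Nat.card H : ℚ) := by exact_mod_cast Nat.card_pos
  have h2 : |(Nat.card H : ℚ) * (f H : ℚ)| ≤ (Nat.card H : ℚ) * (kap (Nat.card G) * B) := by
    rw [← h1]
    refine (Finset.abs_sum_le_sum_abs _ _).trans ?_
    have h3 : ∀ g : G, |if g ∈ H then Phi f g else 0| ≤
        if g ∈ H then kap (Nat.card G) * B else 0 := by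
      intro g
      by_cases hg : g ∈ H
      · rw [if_pos hg, if_pos hg]
        exact Phi_le_all f B hB g
      · rw [if_neg hg, if_neg hg, abs_zero]
    refine (Finset.sum_le_sum fun g _ => h3 g).trans (le_of_eq ?_)
    rw [← Finset.sum_filter, Finset.sum_const, nsmul_eq_mul]
    congr 2
    rw [Nat.card_eq_fintype_card, Fintype.card_subtype]
  rw [abs_mul, abs_of_pos hc] at h2
  exact le_of_mul_le_mul_left h2 hc

/-- `[G : H]` times the indicator function of `H`, minus one -/
noncomputable def uu (H : Subgroup G) (g : G) : ℚ := (if g ∈ H then (H.index : ℚ) else 0) - 1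

theorem sum_ind (H : Subgroup G) (c : ℚ) :
    ∑ g : G, (if g ∈ H then c else 0) = (Nat.card H : ℚ) * c := by
  rw [← Finset.sum_filter, Finset.sum_const, nsmul_eq_mul]
  congr 2
  rw [Nat.card_eq_fintype_card, Fintype.card_subtype]

omit [Fintype G] in
theorem card_idx (H : Subgroup G) : (Nat.card H : ℚ) * (H.index : ℚ) = Nat.card G := by
  exact_mod_cast H.card_mul_index

omit [Group G] in
theorem sum_one : ∑ _g : G, (1 : ℚ) = Nat.card G := by
  rw [Finset.sum_const, Finset.card_univ, nsmul_eq_mul, mul_one, Nat.card_eq_fintype_card]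

theorem sum_uu (H : Subgroup G) : ∑ g : G, uu H g = 0 := by
  unfold uu
  rw [Finset.sum_sub_distrib, sum_ind, sum_one, card_idx, sub_self]

theorem sum_uu_uu (H K : Subgroup G) :
    ∑ g : G, uu H g * uu K g =
      (Nat.card (H ⊓ K : Subgroup G) : ℚ) * (H.index * K.index) - Nat.card G := by
  have h1 : ∀ g : G, uu H g * uu K g = (if g ∈ H ⊓ K then (H.index : ℚ) * K.index else 0) -
      (uu H g + uu K g) - 1 := by
    intro g
    unfold uu
    rw [Subgroup.mem_inf]
    by_cases h1 : g ∈ H <;> by_cases h2 : g ∈ K <;> simp [h1, h2]; ring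
  simp only [h1]
  rw [Finset.sum_sub_distrib, Finset.sum_sub_distrib, Finset.sum_add_distrib, sum_uu, sum_uu,
    sum_ind, sum_one]
  ring

/-- **Bessel's inequality.** -/
theorem bessel {f : Subgroup G → ℤ} (hf : Addv f) {ι : Type} [Fintype ι] (H : ι → Subgroup G)
    (hH : ∀ i, H i ≠ ⊤)
    (hd : ∀ i j, i ≠ j → Nat.card (H i ⊓ H j : Subgroup G) * Nat.card G =
      Nat.card (H i) * Nat.card (H j)) :
    (f ⊤ : ℚ) ^ 2 + ∑ i, ((f (H i) : ℚ) - f ⊤) ^ 2 / ((H i).index - 1) ≤
      (∑ g : G, Phi f g ^ 2) / Nat.card G := by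
  have hn : (0 : ℚ) < Nat.card G := by exact_mod_cast Nat.card_pos
  have hd1 : ∀ i, (0 : ℚ) < ((H i).index : ℚ) - 1 := by
    intro i
    have h1 : 1 < (H i).index := by
      have h2 : (H i).index ≠ 1 := fun h => hH i (Subgroup.index_eq_one.mp h)
      have h3 : (H i).index ≠ 0 := Subgroup.index_ne_zero_of_finite
      omega
    have h2 : (1 : ℚ) < (H i).index := by exact_mod_cast h1
    linarith
  set a : ℚ := (f ⊤ : ℚ) with ha
  set δ : ι → ℚ := fun i => (f (H i) : ℚ) - a with hδ
  set c : ι → ℚ := fun i => δ i / ((H i).index - 1) with hc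
  -- scalar products
  have hm : ∑ g : G, Phi f g = Nat.card G * a := by
    have h1 := mean hf (⊤ : Subgroup G)
    rw [Subgroup.card_top] at h1
    simp only [Subgroup.mem_top, if_true] at h1
    exact h1
  have hu : ∀ i, ∑ g : G, Phi f g * uu (H i) g = Nat.card G * δ i := by
    intro i
    have h1 : ∀ g : G, Phi f g * uu (H i) g =
        (H i).index * (if g ∈ H i then Phi f g else 0) - Phi f g := by
      intro g
      unfold uu
      by_cases h : g ∈ H i
      · simp only [h, if_true]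
        ring
      · simp [h]
    simp only [h1]
    rw [Finset.sum_sub_distrib, ← Finset.mul_sum, mean hf, hm]
    have h2 := card_idx (H i)
    simp only [hδ]
    rw [← h2]
    ring
  have huu : ∀ i j, ∑ g : G, uu (H i) g * uu (H j) g =
      if i = j then Nat.card G * (((H i).index : ℚ) - 1) else 0 := by
    intro i j
    rw [sum_uu_uu]
    by_cases hij : i = j
    · subst hij
      rw [if_pos rfl, inf_idem]
      have h2 := card_idx (H i)
      linear_combination ((H i).index : ℚ) * h2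
    · rw [if_neg hij]
      have h1 := hd i j hij
      have h2 := card_idx (H i)
      have h3 := card_idx (H j)
      have h4 : (Nat.card (H i ⊓ H j : Subgroup G) : ℚ) * Nat.card G =
          Nat.card (H i) * Nat.card (H j) := by exact_mod_cast h1
      have h5 : ((Nat.card (H i ⊓ H j : Subgroup G) : ℚ) * ((H i).index * (H j).index) -
          Nat.card G) * Nat.card G = 0 := by
        calc ((Nat.card (H i ⊓ H j : Subgroup G) : ℚ) * ((H i).index * (H j).index) -
            Nat.card G) * Nat.card G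
            = ((Nat.card (H i ⊓ H j : Subgroup G) : ℚ) * Nat.card G) *
                ((H i).index * (H j).index) - Nat.card G * Nat.card G := by ring
          _ = (Nat.card (H i) * (H i).index) * (Nat.card (H j) * (H j).index) -
                Nat.card G * Nat.card G := by rw [h4]; ring
          _ = 0 := by rw [h2, h3, sub_self]
      exact (mul_eq_zero.mp h5).resolve_right hn.ne'
  -- the square of the rest
  have key : 0 ≤ ∑ g : G, (Phi f g - a - ∑ i, c i * uu (H i) g) ^ 2 :=
    Finset.sum_nonneg fun g _ => sq_nonneg _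
  have hexp : ∑ g : G, (Phi f g - a - ∑ i, c i * uu (H i) g) ^ 2 =
      ∑ g : G, Phi f g ^ 2 - Nat.card G * a ^ 2 - Nat.card G * ∑ i, δ i ^ 2 / ((H i).index - 1) := by
    have h1 : ∀ g : G, (Phi f g - a - ∑ i, c i * uu (H i) g) ^ 2 =
        Phi f g ^ 2 - 2 * a * Phi f g + a ^ 2 * 1 -
          2 * (∑ i, c i * (Phi f g * uu (H i) g)) + 2 * a * (∑ i, c i * uu (H i) g) +
          ∑ i, ∑ j, c i * c j * (uu (H i) g * uu (H j) g) := by
      intro g
      have h2 : ∑ i, ∑ j, c i * c j * (uu (H i) g * uu (H j) g) =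
          (∑ i, c i * uu (H i) g) ^ 2 := by
        rw [sq, Finset.sum_mul_sum]
        refine Finset.sum_congr rfl fun i _ => Finset.sum_congr rfl fun j _ => ?_
        ring
      have h3 : ∑ i, c i * (Phi f g * uu (H i) g) = Phi f g * ∑ i, c i * uu (H i) g := by
        rw [Finset.mul_sum]
        refine Finset.sum_congr rfl fun i _ => ?_
        ring
      rw [h2, h3]
      ring
    simp only [h1]
    simp only [Finset.sum_add_distrib, Finset.sum_sub_distrib, ← Finset.mul_sum]
    rw [hm, sum_one]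
    have h4 : ∑ g : G, ∑ i, c i * (Phi f g * uu (H i) g) =
        Nat.card G * ∑ i, δ i ^ 2 / ((H i).index - 1) := by
      rw [Finset.sum_comm, Finset.mul_sum]
      refine Finset.sum_congr rfl fun i _ => ?_
      rw [← Finset.mul_sum, hu i]
      simp only [hc]
      ring
    have h5 : ∑ g : G, ∑ i, c i * uu (H i) g = 0 := by
      rw [Finset.sum_comm]
      refine Finset.sum_eq_zero fun i _ => ?_
      rw [← Finset.mul_sum, sum_uu, mul_zero]
    have h6 : ∑ g : G, ∑ i, ∑ j, c i * c j * (uu (H i) g * uu (H j) g) =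
        Nat.card G * ∑ i, δ i ^ 2 / ((H i).index - 1) := by
      rw [Finset.sum_comm, Finset.mul_sum]
      refine Finset.sum_congr rfl fun i _ => ?_
      rw [Finset.sum_comm]
      rw [Finset.sum_eq_single i]
      · rw [← Finset.mul_sum, huu i i, if_pos rfl]
        simp only [hc]
        have h7 := (hd1 i).ne'
        field_simp
      · intro j _ hj
        rw [← Finset.mul_sum, huu i j, if_neg (Ne.symm hj), mul_zero]
      · intro h
        exact absurd (Finset.mem_univ _) h
    rw [h4, h5, h6]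
    ring
  rw [hexp] at key
  rw [le_div_iff₀ hn]
  linarith

end BE57
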