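import Pool.Agent.Helper57.BE.Bd
import Pool.Agent.Helper94.SF.T1F
import Pool.Agent.Helper64.BKA.T2S

/-!
# The error in the rank formula over the intermediate fields of a Galois extension
-/

set_option autoImplicit false

open BKA NumberField
open scoped Classical

namespace BKA

section

variable {F E k : Type} [Field F] [NumberField F] [Field E] [Field k] [TopologicalSpace k]
  {V : Repr F E k}

/-- The error in the rank formula for `V ⊗ χ` over `K = L^H` is `e`: the Selmer group has finite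
dimension `s`, the `L`-function has a meromorphic continuation with order `a` at `0`, and
`e = s - a`. -/
def Ext.Err (L : Ext V) (C : Local V.ρ) (H : Subgroup L.G) (χ : Ch E H) (e : ℤ) : Prop :=
  ∃ (s : ℕ) (a : ℤ), L.Sel C H χ s ∧ L.Ord H χ a ∧ e = s - a

end

end BKA

namespace BE57

/-! ## Quadratic characters -/

section quad

variable {R G : Type} [Field R] [CharZero R] [Group G] {H : Subgroup G}

theorem neg_one_ne : (-1 : Rˣ) ≠ 1 := by
  intro h
  have h1 : ((-1 : Rˣ) : R) = 1 := by rw [h, Units.val_one]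
  rw [Units.val_neg, Units.val_one] at h1
  have h2 : (2 : R) = 0 := by linear_combination -h1
  exact two_ne_zero h2

omit [CharZero R] in
theorem val_cases (χ : Ch R H) (hχ : χ.Quad) (g : H) : χ.hom g = 1 ∨ χ.hom g = -1 := by
  have h2 : χ.hom g ^ 2 = 1 := DFunLike.congr_fun hχ g
  have h4 : ((χ.hom g : Rˣ) : R) ^ 2 = 1 := by
    rw [← Units.val_pow_eq_pow_val, h2, Units.val_one]
  rcases sq_eq_one_iff.mp h4 with h | h
  · exact Or.inl (Units.ext h)
  · exact Or.inr (Units.ext (by rw [h, Units.val_neg, Units.val_one]))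

/-- the kernel as a subgroup of `G` -/
def kerS (χ : Ch R H) : Subgroup G := χ.hom.ker.map H.subtype

omit [CharZero R] in
theorem mem_kerS (χ : Ch R H) (g : G) : g ∈ kerS χ ↔ ∃ h : g ∈ H, χ.hom ⟨g, h⟩ = 1 := by
  unfold kerS
  rw [Subgroup.mem_map]
  constructor
  · rintro ⟨x, hx, rfl⟩
    exact ⟨x.2, hx⟩
  · rintro ⟨h, hx⟩
    exact ⟨⟨g, h⟩, hx, rfl⟩

/-- the values `1` and `-1` as rational numbers, extended by `0` -/
noncomputable def sgn (χ : Ch R H) (g : G) : ℚ :=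
  if h : g ∈ H then (if χ.hom ⟨g, h⟩ = 1 then 1 else -1) else 0

omit [CharZero R] in
theorem sgn_triv (g : G) : sgn (Ch.triv : Ch R H) g = if g ∈ H then 1 else 0 := by
  unfold sgn
  by_cases h : g ∈ H
  · rw [dif_pos h, if_pos h]
    exact if_pos rfl
  · rw [dif_neg h, if_neg h]

omit [CharZero R] in
theorem two_kerS (χ : Ch R H) (g : G) :
    2 * (if g ∈ kerS χ then (1 : ℚ) else 0) = (if g ∈ H then 1 else 0) + sgn χ g := by
  unfold sgn
  rw [mem_kerS]
  by_cases h : g ∈ H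
  · by_cases h2 : χ.hom ⟨g, h⟩ = 1
    · rw [if_pos ⟨h, h2⟩, if_pos h, dif_pos h, if_pos h2]
      norm_num
    · rw [if_neg fun h3 => h2 h3.2, if_pos h, dif_pos h, if_neg h2]
      norm_num
  · rw [if_neg fun h3 => h h3.1, if_neg h, dif_neg h]
    norm_num

theorem ext_sgn (χ : Ch R H) (hχ : χ.Quad) (g : G) : ext H χ.hom g = ((sgn χ g : ℚ) : R) := by
  unfold ext sgn
  by_cases h : g ∈ H
  · rw [dif_pos h, dif_pos h]
    rcases val_cases χ hχ ⟨g, h⟩ with h2 | h2
    · rw [h2, if_pos rfl]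
      simp
    · rw [h2, if_neg neg_one_ne]
      simp
  · rw [dif_neg h, dif_neg h]
    simp

/-- orthogonality -/
theorem sum_sgn [Fintype G] (χ : Ch R H) (hχ : χ.Quad) (h1 : χ ≠ Ch.triv) :
    ∑ g : G, sgn χ g = 0 := by
  obtain ⟨x, hx⟩ : ∃ x : H, χ.hom x ≠ 1 := by
    by_contra hcon
    push Not at hcon
    exact h1 (MonoidHom.ext fun x => hcon x)
  have hx' : χ.hom x = -1 := (val_cases χ hχ x).resolve_left hx
  have h2 : ∀ g : G, sgn χ ((x : G) * g) = -sgn χ g := by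
    intro g
    unfold sgn
    by_cases h : g ∈ H
    · have h3 : (x : G) * g ∈ H := H.mul_mem x.2 h
      rw [dif_pos h, dif_pos h3]
      have h4 : χ.hom ⟨(x : G) * g, h3⟩ = χ.hom x * χ.hom ⟨g, h⟩ := by
        rw [← map_mul]
        rfl
      rcases val_cases χ hχ ⟨g, h⟩ with h5 | h5
      · rw [h4, h5, hx', mul_one, if_neg neg_one_ne, if_pos rfl]
      · rw [h4, h5, hx', neg_mul_neg, one_mul, if_pos rfl, if_neg neg_one_ne, neg_neg]
    · have h3 : (x : G) * g ∉ H := fun h3 => h ((H.mul_mem_cancel_left x.2).mp h3)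
      rw [dif_neg h, dif_neg h3, neg_zero]
  have h3 : ∑ g : G, sgn χ g = -∑ g : G, sgn χ g := by
    rw [← Finset.sum_neg_distrib]
    calc ∑ g : G, sgn χ g = ∑ g : G, sgn χ ((x : G) * g) :=
          (Fintype.sum_equiv (Equiv.mulLeft (x : G)) _ _ fun g => rfl).symm
      _ = _ := Finset.sum_congr rfl fun g _ => h2 g
  linarith

/-- the product of two quadratic characters -/
def mulC (χ ψ : Ch R H) : Ch R H := (χ.hom * ψ.hom : H →* Rˣ)

omit [CharZero R] in
theorem mulC_quad (χ ψ : Ch R H) (hχ : χ.Quad) (hψ : ψ.Quad) : (mulC χ ψ).Quad := by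
  refine MonoidHom.ext fun x => ?_
  have h1 : χ.hom x ^ 2 = 1 := DFunLike.congr_fun hχ x
  have h2 : ψ.hom x ^ 2 = 1 := DFunLike.congr_fun hψ x
  change (χ.hom x * ψ.hom x) ^ 2 = 1
  rw [mul_pow, h1, h2, mul_one]

theorem sgn_mul (χ ψ : Ch R H) (hχ : χ.Quad) (hψ : ψ.Quad) (g : G) :
    sgn χ g * sgn ψ g = sgn (mulC χ ψ) g := by
  unfold sgn
  by_cases h : g ∈ H
  · rw [dif_pos h, dif_pos h, dif_pos h]
    have h4 : (mulC χ ψ).hom ⟨g, h⟩ = χ.hom ⟨g, h⟩ * ψ.hom ⟨g, h⟩ := rfl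
    rcases val_cases χ hχ ⟨g, h⟩ with h5 | h5 <;> rcases val_cases ψ hψ ⟨g, h⟩ with h6 | h6 <;>
      rw [h4, h5, h6] <;> simp
  · rw [dif_neg h, dif_neg h, dif_neg h, mul_zero]

omit [CharZero R] in
theorem mulC_triv (χ ψ : Ch R H) (hψ : ψ.Quad) (h : mulC χ ψ = Ch.triv) : χ = ψ := by
  have h' : (mulC χ ψ).hom = 1 := h
  refine MonoidHom.ext fun x => ?_
  have h1 : χ.hom x * ψ.hom x = 1 := DFunLike.congr_fun h' x
  have h2 : ψ.hom x ^ 2 = 1 := DFunLike.congr_fun hψ x
  rw [sq] at h2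
  exact mul_right_cancel (h1.trans h2.symm)

theorem sum_sgn_mul [Fintype G] (χ ψ : Ch R H) (hχ : χ.Quad) (hψ : ψ.Quad) :
    ∑ g : G, sgn χ g * sgn ψ g = if χ = ψ then (Nat.card H : ℚ) else 0 := by
  rw [Finset.sum_congr rfl fun g _ => sgn_mul χ ψ hχ hψ g]
  by_cases h : χ = ψ
  · subst h
    rw [if_pos rfl]
    have h1 : mulC χ χ = Ch.triv := by
      refine MonoidHom.ext fun x => ?_
      have h2 : χ.hom x ^ 2 = 1 := DFunLike.congr_fun hχ x
      rw [sq] at h2
      exact h2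
    rw [h1, Finset.sum_congr rfl fun g _ => sgn_triv (R := R) (H := H) g, sum_ind, mul_one]
  · rw [if_neg h]
    exact sum_sgn _ (mulC_quad χ ψ hχ hψ) fun h1 => h (mulC_triv χ ψ hψ h1)

theorem card_kerS [Fintype G] (χ : Ch R H) (hχ : χ.Quad) (h1 : χ ≠ Ch.triv) :
    (Nat.card H : ℚ) = 2 * Nat.card (kerS χ) := by
  have h2 : ∑ g : G, (2 * (if g ∈ kerS χ then (1 : ℚ) else 0)) =
      ∑ g : G, ((if g ∈ H then 1 else 0) + sgn χ g) :=
    Finset.sum_congr rfl fun g _ => two_kerS χ g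
  rw [← Finset.mul_sum, Finset.sum_add_distrib, sum_sgn χ hχ h1, add_zero, sum_ind, sum_ind,
    mul_one, mul_one] at h2
  exact h2.symm

/-- the relation between a quadratic character and its kernel -/
theorem ker_rel [Fintype G] (χ : Ch R H) (hχ : χ.Quad) (h1 : χ ≠ Ch.triv) (x : G) :
    ind (kerS χ) (1 : kerS χ →* Rˣ) x = ind H (1 : H →* Rˣ) x + ind H χ.hom x := by
  have hH : (Nat.card H : R) ≠ 0 := by exact_mod_cast Nat.card_pos.ne'
  have hK : (Nat.card (kerS χ) : R) ≠ 0 := by exact_mod_cast Nat.card_pos.ne'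
  have hHK : (Nat.card H : R) = 2 * Nat.card (kerS χ) := by
    have h2 := card_kerS χ hχ h1
    exact_mod_cast h2
  have h3 := CYC82.card_ind (R := R) (kerS χ) x
  have h4 := CYC82.card_ind (R := R) H x
  have h5 : (Nat.card H : R) * ind H χ.hom x = ∑ g : G, ((sgn χ (g⁻¹ * x * g) : ℚ) : R) := by
    unfold ind
    rw [← mul_assoc, mul_inv_cancel₀ hH, one_mul]
    exact Finset.sum_congr rfl fun g _ => ext_sgn χ hχ _
  refine mul_left_cancel₀ hH ?_
  rw [mul_add, h4, h5, hHK, mul_assoc, h3, Finset.mul_sum, ← Finset.sum_add_distrib]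
  refine Finset.sum_congr rfl fun g _ => ?_
  have h6 := two_kerS χ (g⁻¹ * x * g)
  have h7 : ((2 * (if g⁻¹ * x * g ∈ kerS χ then (1 : ℚ) else 0) : ℚ) : R) =
      (((if g⁻¹ * x * g ∈ H then 1 else 0) + sgn χ (g⁻¹ * x * g) : ℚ) : R) := by rw [h6]
  simp only [Rat.cast_mul, Rat.cast_add, Rat.cast_ofNat, apply_ite (Rat.cast : ℚ → R), Rat.cast_one,
    Rat.cast_zero] at h7
  exact h7

end quad

/-! ## The error -/

section err

variable {F E k : Type} [Field F] [NumberField F] [Field E] [Field k] [CharZero k]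
  [TopologicalSpace k] [IsTopologicalRing k] {V : Repr F E k}

/-- the error is unique -/
theorem err_unique (C : Local V.ρ) (L : Ext V) (s₀ : ℕ) (h0 : L.Sel C ⊥ Ch.triv s₀)
    (H : Subgroup L.G) (χ : Ch E H) (e e' : ℤ) (h : L.Err C H χ e) (h' : L.Err C H χ e') :
    e = e' := by
  obtain ⟨s, a, hs, ha, rfl⟩ := h
  obtain ⟨s', a', hs', ha', rfl⟩ := h'
  rw [sel_unique C L s₀ h0 H χ s s' hs hs', ord_unique L H χ a a' ha ha']

/-- the error is additive -/
theorem addv (C : Local V.ρ) (L : Ext V) (s₀ : ℕ) (h0 : L.Sel C ⊥ Ch.triv s₀)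
    (e : Subgroup L.G → ℤ) (he : ∀ H, L.Err C H Ch.triv (e H)) : Addv e := by
  have : CharZero E := V.ι.charZero
  intro m hm
  choose s a hs ha hea using he
  let q := Fintype.equivFin (Subgroup L.G)
  have h1 := art C L s₀ h0 (fun i => q.symm i) (fun _ => Ch.triv)
    (fun i => m (q.symm i) * (Nat.card (q.symm i) : ℤ)) (fun i => s (q.symm i))
    (fun i => a (q.symm i)) (fun i => hs _) (fun i => ha _) (fun x => by
      rw [Equiv.sum_comp q.symm (fun B : Subgroup L.G =>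
        ((m B * (Nat.card B : ℤ) : ℤ) : E) * ind B (Ch.triv : Ch E B).hom x)]
      have h2 : ∀ B : Subgroup L.G,
          ((m B * (Nat.card B : ℤ) : ℤ) : E) * ind B (Ch.triv : Ch E B).hom x =
            ∑ g : L.G, (m B : E) * (if g⁻¹ * x * g ∈ B then (1 : E) else 0) := by
        intro B
        have h3 := CYC82.card_ind (R := E) B x
        rw [← Finset.mul_sum, ← h3]
        push_cast
        exact mul_assoc _ _ _
      simp only [h2]
      rw [Finset.sum_comm]
      refine Finset.sum_eq_zero fun g _ => ?_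
      have h4 := hm (g⁻¹ * x * g)
      have h5 : ((∑ B : Subgroup L.G, m B * (if g⁻¹ * x * g ∈ B then 1 else 0) : ℤ) : E) = 0 := by
        rw [h4, Int.cast_zero]
      push_cast at h5
      exact h5)
  rw [Equiv.sum_comp q.symm (fun B : Subgroup L.G =>
    m B * (Nat.card B : ℤ) * ((s B : ℤ) - a B))] at h1
  rw [← h1]
  exact Finset.sum_congr rfl fun B _ => by rw [hea B]

/-- the error is invariant under conjugation -/
theorem err_conj (C : Local V.ρ) (L : Ext V) (s₀ : ℕ) (h0 : L.Sel C ⊥ Ch.triv s₀)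
    (H K : Subgroup L.G) (t : L.G) (hK : ∀ y, t * y * t⁻¹ ∈ K ↔ y ∈ H) (e₁ e₂ : ℤ)
    (he1 : L.Err C H Ch.triv e₁) (he2 : L.Err C K Ch.triv e₂) : e₁ = e₂ := by
  have : CharZero E := V.ι.charZero
  obtain ⟨s1, a1, hs1, ha1, rfl⟩ := he1
  obtain ⟨s2, a2, hs2, ha2, rfl⟩ := he2
  have h2 := art C L s₀ h0 (r := 2) ![H, K]
    (fun i => match i with
      | 0 => Ch.triv
      | 1 => Ch.triv) ![1, -1] ![s1, s2] ![a1, a2]
    (fun i => by
      match i with
      | 0 => exact hs1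
      | 1 => exact hs2)
    (fun i => by
      match i with
      | 0 => exact ha1
      | 1 => exact ha2)
    (fun x => by
      rw [Fin.sum_univ_two]
      have h3 := st_CNJ L.G E H K 1 1 t (fun y => by
        unfold ext
        by_cases h : y ∈ H
        · rw [dif_pos h, dif_pos ((hK y).mpr h)]
          rfl
        · rw [dif_neg h, dif_neg fun h' => h ((hK y).mp h')]) x
      change ((1 : ℤ) : E) * ind H (1 : H →* Eˣ) x + ((-1 : ℤ) : E) * ind K (1 : K →* Eˣ) x = 0
      rw [h3]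
      push_cast
      ring)
  rw [Fin.sum_univ_two] at h2
  change (1 : ℤ) * ((s1 : ℤ) - a1) + (-1) * ((s2 : ℤ) - a2) = 0 at h2
  linarith

/-- the error for a quadratic twist -/
theorem err_quad (C : Local V.ρ) (L : Ext V) (s₀ : ℕ) (h0 : L.Sel C ⊥ Ch.triv s₀)
    (H : Subgroup L.G) (χ : Ch E H) (hχ : χ.Quad) (h1 : χ ≠ Ch.triv) (e₁ e₂ e₃ : ℤ)
    (he1 : L.Err C (kerS χ) Ch.triv e₁) (he2 : L.Err C H Ch.triv e₂) (he3 : L.Err C H χ e₃) :
    e₃ = e₁ - e₂ := by
  have : CharZero E := V.ι.charZero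
  obtain ⟨s1, a1, hs1, ha1, rfl⟩ := he1
  obtain ⟨s2, a2, hs2, ha2, rfl⟩ := he2
  obtain ⟨s3, a3, hs3, ha3, rfl⟩ := he3
  have h2 := art C L s₀ h0 (r := 3) ![kerS χ, H, H]
    (fun i => match i with
      | 0 => Ch.triv
      | 1 => Ch.triv
      | 2 => χ) ![1, -1, -1] ![s1, s2, s3] ![a1, a2, a3]
    (fun i => by
      match i with
      | 0 => exact hs1
      | 1 => exact hs2
      | 2 => exact hs3)
    (fun i => by
      match i with
      | 0 => exact ha1
      | 1 => exact ha2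
      | 2 => exact ha3)
    (fun x => by
      rw [Fin.sum_univ_three]
      have h3 := ker_rel χ hχ h1 x
      change ((1 : ℤ) : E) * ind (kerS χ) (1 : kerS χ →* Eˣ) x +
        ((-1 : ℤ) : E) * ind H (1 : H →* Eˣ) x +
        ((-1 : ℤ) : E) * ind H χ.hom x = 0
      rw [h3]
      push_cast
      ring)
  rw [Fin.sum_univ_three] at h2
  change (1 : ℤ) * ((s1 : ℤ) - a1) + (-1) * ((s2 : ℤ) - a2) + (-1) * ((s3 : ℤ) - a3) = 0 at h2
  linarith

end err

end BE57
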