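import Pool.Agent.Helper57.BE.Fin

/-!
# The theorem on the error in the rank formula
-/

set_option autoImplicit false

open BKA NumberField
open scoped Classical

namespace BE57

section grp

variable {G : Type} [Group G] [Fintype G]

/-- invariance under conjugation -/
def Cnj (f : Subgroup G → ℤ) : Prop :=
  ∀ (H K : Subgroup G) (t : G), (∀ y, t * y * t⁻¹ ∈ K ↔ y ∈ H) → f H = f K

omit [Fintype G] in
theorem zpowers_conj (t g : G) (y : G) :
    t * y * t⁻¹ ∈ Subgroup.zpowers (t * g * t⁻¹) ↔ y ∈ Subgroup.zpowers g := by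
  rw [Subgroup.mem_zpowers_iff, Subgroup.mem_zpowers_iff]
  constructor
  · rintro ⟨j, hj⟩
    rw [conj_zpow] at hj
    exact ⟨j, by
      have h1 := mul_right_cancel hj
      exact mul_left_cancel h1⟩
  · rintro ⟨j, rfl⟩
    exact ⟨j, conj_zpow⟩

theorem Phi_conj {f : Subgroup G → ℤ} (hf : Cnj f) (t g : G) :
    Phi f (t * g * t⁻¹) = Phi f g := by
  have h1 : orderOf (t * g * t⁻¹) = orderOf g := by
    have h2 := orderOf_injective (MulAut.conj t).toMonoidHom (MulAut.conj t).injective g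
    exact h2
  have h2 : ∀ m : ℕ, f (Subgroup.zpowers ((t * g * t⁻¹) ^ m)) = f (Subgroup.zpowers (g ^ m)) := by
    intro m
    rw [conj_pow]
    exact (hf _ _ t (zpowers_conj t (g ^ m))).symm
  have h3 : ∀ m : ℕ, Nat.card (Subgroup.zpowers ((t * g * t⁻¹) ^ m)) =
      Nat.card (Subgroup.zpowers (g ^ m)) := by
    intro m
    rw [Nat.card_zpowers, Nat.card_zpowers, conj_pow]
    exact orderOf_injective (MulAut.conj t).toMonoidHom (MulAut.conj t).injective (g ^ m)
  unfold Phi Psi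
  simp only [h1, h2, h3]

end grp

/-- `e (H, χ)` in terms of `Φ` -/
theorem twist {G R : Type} [Group G] [Fintype G] [Field R] [CharZero R] {f : Subgroup G → ℤ}
    (hf : Addv f) (H : Subgroup G) (χ : Ch R H) (hχ : χ.Quad) (x : ℤ)
    (hx : (χ = Ch.triv → x = f H) ∧ (χ ≠ Ch.triv → x = f (kerS χ) - f H)) :
    (Nat.card H : ℚ) * x = ∑ g : G, sgn χ g * Phi f g := by
  by_cases h : χ = Ch.triv
  · rw [hx.1 h, ← mean hf H, h]
    refine Finset.sum_congr rfl fun g _ => ?_
    rw [sgn_triv]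
    by_cases hg : g ∈ H
    · rw [if_pos hg, if_pos hg, one_mul]
    · rw [if_neg hg, if_neg hg, zero_mul]
  · rw [hx.2 h]
    push_cast
    rw [mul_sub, ← mean hf H]
    have h1 := card_kerS χ hχ h
    have h2 := mean hf (kerS χ)
    have h3 : (Nat.card H : ℚ) * (f (kerS χ) : ℚ) =
        2 * ∑ g : G, (if g ∈ kerS χ then Phi f g else 0) := by
      rw [h2, h1]
      ring
    rw [h3, Finset.mul_sum, ← Finset.sum_sub_distrib]
    refine Finset.sum_congr rfl fun g _ => ?_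
    have h4 := two_kerS χ g
    have h5 : sgn χ g = 2 * (if g ∈ kerS χ then (1 : ℚ) else 0) - (if g ∈ H then 1 else 0) := by
      rw [h4]
      ring
    rw [h5]
    by_cases hg : g ∈ H <;> by_cases hk : g ∈ kerS χ <;> simp [hg, hk] <;> ring

theorem ext_map_sgn {G R : Type} [Group G] [Field R] [CharZero R] {H : Subgroup G} (ι : R →+* ℂ)
    (χ : Ch R H) (hχ : χ.Quad) (g : G) : ext H (χ.map ι) g = ((sgn χ g : ℚ) : ℂ) := by
  have h1 : ext H (χ.map ι) g = ι (ext H χ.hom g) := by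
    unfold ext
    by_cases h : g ∈ H
    · rw [dif_pos h, dif_pos h]
      rfl
    · rw [dif_neg h, dif_neg h, map_zero]
  rw [h1, ext_sgn χ hχ, map_ratCast]

/-- The main inequality. -/
theorem main_ineq {G R : Type} [Group G] [Fintype G] [Field R] [CharZero R] (ι : R →+* ℂ)
    {f : Subgroup G → ℤ} (hf : Addv f) (hc : Cnj f) (B : ℝ)
    (hB : ∀ D : Subgroup G, IsCyclic D → |(f D : ℝ)| ≤ B)
    (e : (H : Subgroup G) → Ch R H → ℤ)
    (he : ∀ H χ, χ.Quad → (χ = Ch.triv → e H χ = f H) ∧ (χ ≠ Ch.triv → e H χ = f (kerS χ) - f H)) :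
    (∀ (r : ℕ) (n : Fin r → ℤ) (H : Fin r → Subgroup G) (χ : ∀ i, Ch R (H i)),
      (∀ i, (χ i).Quad) → |((∑ i, n i * e (H i) (χ i) : ℤ) : ℝ)| ≤
        (kap (Nat.card G) : ℝ) * B * ((∑ g : G, ‖∑ i, (n i : ℂ) * ind (H i) ((χ i).map ι) g‖) /
          Nat.card G)) ∧
    ∀ (H : Subgroup G) (r : ℕ) (χ : Fin r → Ch R H), Function.Injective χ → (∀ i, (χ i).Quad) →
      ∑ i, (e H (χ i) : ℝ) ^ 2 ≤ ((kap (Nat.card G) : ℝ) * B) ^ 2 := by
  have hN : (0 : ℝ) < Nat.card G := by exact_mod_cast Nat.card_pos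
  have hkap : (0 : ℝ) < (kap (Nat.card G) : ℝ) := by exact_mod_cast kap_pos _
  -- the bound for `Φ`: the maximum of the errors is rational
  have hPhi : ∀ g : G, |(Phi f g : ℝ)| ≤ (kap (Nat.card G) : ℝ) * B := by
    intro g
    obtain ⟨B', hB', hB''⟩ : ∃ B' : ℤ, (∀ D : Subgroup G, IsCyclic D → |f D| ≤ B') ∧
        (B' : ℝ) ≤ B := by
      have hne : (Finset.univ.filter fun D : Subgroup G => IsCyclic D).Nonempty :=
        ⟨⊥, Finset.mem_filter.mpr ⟨Finset.mem_univ _, inferInstance⟩⟩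
      obtain ⟨D₀, hD₀, hmax⟩ := Finset.exists_max_image _ (fun D : Subgroup G => |f D|) hne
      refine ⟨|f D₀|, fun D hD => hmax D (Finset.mem_filter.mpr ⟨Finset.mem_univ _, hD⟩), ?_⟩
      have := hB D₀ (Finset.mem_filter.mp hD₀).2
      push_cast
      exact this
    have h1 := Phi_le_all f (B' : ℚ) (fun D hD => by exact_mod_cast hB' D hD) g
    have h2 : |(Phi f g : ℝ)| ≤ (kap (Nat.card G) : ℝ) * (B' : ℝ) := by exact_mod_cast h1
    exact h2.trans (mul_le_mul_of_nonneg_left hB'' hkap.le)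
  constructor
  · intro r n H χ hχ
    have hcard : ∀ i, (Nat.card (H i) : ℂ) ≠ 0 := fun i => by exact_mod_cast Nat.card_pos.ne'
    have h1 : ∀ i, (Nat.card G : ℂ)⁻¹ * ∑ g : G, ind (H i) ((χ i).map ι) g * ((Phi f g : ℚ) : ℂ) =
        (e (H i) (χ i) : ℂ) := by
      intro i
      rw [st_FRO G ℂ (H i) ((χ i).map ι) (fun g => ((Phi f g : ℚ) : ℂ)) (fun x g => by
        have h2 := Phi_conj hc x⁻¹ g
        rw [inv_inv] at h2
        rw [h2])]
      have h3 := twist hf (H i) (χ i) (hχ i) _ (he (H i) (χ i) (hχ i))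
      have h4 : (((Nat.card (H i) : ℚ) * (e (H i) (χ i) : ℚ) : ℚ) : ℂ) =
          ((∑ g : G, sgn (χ i) g * Phi f g : ℚ) : ℂ) := by rw [h3]
      push_cast at h4
      have h5 : ∑ g : G, ext (H i) ((χ i).map ι) g * ((Phi f g : ℚ) : ℂ) =
          (Nat.card (H i) : ℂ) * (e (H i) (χ i) : ℂ) := by
        rw [h4]
        exact Finset.sum_congr rfl fun g _ => by rw [ext_map_sgn ι (χ i) (hχ i)]
      rw [h5, ← mul_assoc, inv_mul_cancel₀ (hcard i), one_mul]
    have h2 : ((∑ i, n i * e (H i) (χ i) : ℤ) : ℂ) = (Nat.card G : ℂ)⁻¹ *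
        ∑ g : G, (∑ i, (n i : ℂ) * ind (H i) ((χ i).map ι) g) * ((Phi f g : ℚ) : ℂ) := by
      push_cast
      have h3 : ∀ g : G, (∑ i, (n i : ℂ) * ind (H i) ((χ i).map ι) g) * ((Phi f g : ℚ) : ℂ) =
          ∑ i, (n i : ℂ) * (ind (H i) ((χ i).map ι) g * ((Phi f g : ℚ) : ℂ)) := by
        intro g
        rw [Finset.sum_mul]
        exact Finset.sum_congr rfl fun i _ => by ring
      simp only [h3]
      rw [Finset.sum_comm, Finset.mul_sum]
      refine Finset.sum_congr rfl fun i _ => ?_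
      rw [← Finset.mul_sum, ← h1 i]
      ring
    have h3 : |((∑ i, n i * e (H i) (χ i) : ℤ) : ℝ)| = ‖((∑ i, n i * e (H i) (χ i) : ℤ) : ℂ)‖ := by
      rw [Complex.norm_intCast]
    rw [h3, h2, norm_mul, norm_inv, Complex.norm_natCast]
    have h4 : ‖∑ g : G, (∑ i, (n i : ℂ) * ind (H i) ((χ i).map ι) g) * ((Phi f g : ℚ) : ℂ)‖ ≤
        ((kap (Nat.card G) : ℝ) * B) * ∑ g : G, ‖∑ i, (n i : ℂ) * ind (H i) ((χ i).map ι) g‖ := by
      refine (norm_sum_le _ _).trans ?_
      rw [Finset.mul_sum]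
      refine Finset.sum_le_sum fun g _ => ?_
      rw [norm_mul, mul_comm]
      refine mul_le_mul_of_nonneg_right ?_ (norm_nonneg _)
      have h5 : ‖((Phi f g : ℚ) : ℂ)‖ = |(Phi f g : ℝ)| := by
        rw [← Complex.ofReal_ratCast, Complex.norm_real, Real.norm_eq_abs]
      rw [h5]
      exact hPhi g
    calc (Nat.card G : ℝ)⁻¹ *
        ‖∑ g : G, (∑ i, (n i : ℂ) * ind (H i) ((χ i).map ι) g) * ((Phi f g : ℚ) : ℂ)‖
        ≤ (Nat.card G : ℝ)⁻¹ * (((kap (Nat.card G) : ℝ) * B) *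
            ∑ g : G, ‖∑ i, (n i : ℂ) * ind (H i) ((χ i).map ι) g‖) :=
          mul_le_mul_of_nonneg_left h4 (inv_nonneg.mpr hN.le)
      _ = _ := by
          field_simp
  · intro H r χ hinj hχ
    have hH : (0 : ℚ) < Nat.card H := by exact_mod_cast Nat.card_pos
    set a : Fin r → ℚ := fun i => (e H (χ i) : ℚ) with ha
    have h1 : ∀ i, (Nat.card H : ℚ) * a i = ∑ g : G, sgn (χ i) g * Phi f g := fun i =>
      twist hf H (χ i) (hχ i) _ (he H (χ i) (hχ i))
    have h2 : ∀ i j, ∑ g : G, sgn (χ i) g * sgn (χ j) g = if i = j then (Nat.card H : ℚ) else 0 := by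
      intro i j
      rw [sum_sgn_mul (χ i) (χ j) (hχ i) (hχ j)]
      by_cases hij : i = j
      · rw [if_pos (by rw [hij]), if_pos hij]
      · rw [if_neg fun h => hij (hinj h), if_neg hij]
    -- the square of the rest, on `H`
    have key : 0 ≤ ∑ g : G, ((if g ∈ H then Phi f g else 0) - ∑ i, a i * sgn (χ i) g) ^ 2 :=
      Finset.sum_nonneg fun g _ => sq_nonneg _
    have hexp : ∑ g : G, ((if g ∈ H then Phi f g else 0) - ∑ i, a i * sgn (χ i) g) ^ 2 =
        ∑ g : G, (if g ∈ H then Phi f g ^ 2 else 0) - (Nat.card H : ℚ) * ∑ i, a i ^ 2 := by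
      have h3 : ∀ g : G, ((if g ∈ H then Phi f g else 0) - ∑ i, a i * sgn (χ i) g) ^ 2 =
          (if g ∈ H then Phi f g ^ 2 else 0) - 2 * (∑ i, a i * (sgn (χ i) g * Phi f g)) +
            ∑ i, ∑ j, a i * a j * (sgn (χ i) g * sgn (χ j) g) := by
        intro g
        have h4 : ∑ i, ∑ j, a i * a j * (sgn (χ i) g * sgn (χ j) g) =
            (∑ i, a i * sgn (χ i) g) ^ 2 := by
          rw [sq, Finset.sum_mul_sum]
          refine Finset.sum_congr rfl fun i _ => Finset.sum_congr rfl fun j _ => ?_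
          ring
        have h5 : ∑ i, a i * (sgn (χ i) g * Phi f g) = Phi f g * ∑ i, a i * sgn (χ i) g := by
          rw [Finset.mul_sum]
          exact Finset.sum_congr rfl fun i _ => by ring
        rw [h4, h5]
        by_cases hg : g ∈ H
        · rw [if_pos hg, if_pos hg]
          ring
        · rw [if_neg hg, if_neg hg]
          have h6 : ∀ i, sgn (χ i) g = 0 := fun i => by
            unfold sgn
            rw [dif_neg hg]
          simp [h6]
      simp only [h3]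
      rw [Finset.sum_add_distrib, Finset.sum_sub_distrib, ← Finset.mul_sum]
      have h4 : ∑ g : G, ∑ i, a i * (sgn (χ i) g * Phi f g) = (Nat.card H : ℚ) * ∑ i, a i ^ 2 := by
        rw [Finset.sum_comm, Finset.mul_sum]
        refine Finset.sum_congr rfl fun i _ => ?_
        rw [← Finset.mul_sum, ← h1 i]
        ring
      have h5 : ∑ g : G, ∑ i, ∑ j, a i * a j * (sgn (χ i) g * sgn (χ j) g) =
          (Nat.card H : ℚ) * ∑ i, a i ^ 2 := by
        rw [Finset.sum_comm, Finset.mul_sum]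
        refine Finset.sum_congr rfl fun i _ => ?_
        rw [Finset.sum_comm, Finset.sum_eq_single i]
        · rw [← Finset.mul_sum, h2 i i, if_pos rfl]
          ring
        · intro j _ hj
          rw [← Finset.mul_sum, h2 i j, if_neg (Ne.symm hj), mul_zero]
        · intro h
          exact absurd (Finset.mem_univ _) h
      rw [h4, h5]
      ring
    rw [hexp] at key
    have h6 : ((Nat.card H : ℚ) * ∑ i, a i ^ 2 : ℚ) ≤ ∑ g : G, (if g ∈ H then Phi f g ^ 2 else 0) := by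
      linarith
    have h7 : ((Nat.card H : ℝ) * ∑ i, (e H (χ i) : ℝ) ^ 2) ≤
        ∑ g : G, (if g ∈ H then (Phi f g : ℝ) ^ 2 else 0) := by
      have h8 := (Rat.cast_le (K := ℝ)).mpr h6
      simp only [ha] at h8
      push_cast at h8
      simp only [apply_ite (Rat.cast : ℚ → ℝ), Rat.cast_pow, Rat.cast_zero] at h8
      exact h8
    have h8 : ∑ g : G, (if g ∈ H then (Phi f g : ℝ) ^ 2 else 0) ≤
        ∑ g : G, (if g ∈ H then ((kap (Nat.card G) : ℝ) * B) ^ 2 else 0) := by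
      refine Finset.sum_le_sum fun g _ => ?_
      by_cases hg : g ∈ H
      · rw [if_pos hg, if_pos hg]
        exact sq_le_sq' (by linarith [neg_abs_le (Phi f g : ℝ), hPhi g])
          ((le_abs_self _).trans (hPhi g))
      · rw [if_neg hg, if_neg hg]
    have h9 : ∑ g : G, (if g ∈ H then ((kap (Nat.card G) : ℝ) * B) ^ 2 else 0) =
        (Nat.card H : ℝ) * ((kap (Nat.card G) : ℝ) * B) ^ 2 := by
      rw [← Finset.sum_filter, Finset.sum_const, nsmul_eq_mul]
      congr 2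
      rw [Nat.card_eq_fintype_card, Fintype.card_subtype]
    rw [h9] at h8
    have hH' : (0 : ℝ) < Nat.card H := by exact_mod_cast Nat.card_pos
    exact le_of_mul_le_mul_left (h7.trans h8) hH'

theorem be_final (F E k : Type) [Field F] [NumberField F] [Field E] [Field k] [CharZero k]
    [TopologicalSpace k] [IsTopologicalRing k] (hk : IsNonarch k)
    (V : Repr F E k) (C : Local V.ρ) (hC : C.AlmostUnr) (L : Ext V) (ha : L.ContAll) :
    ∃ e : (H : Subgroup L.G) → Ch E H → ℤ, (∀ H χ x, L.Err C H χ x ↔ x = e H χ) ∧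
    ∀ B : ℝ, (∀ D : Subgroup L.G, IsCyclic D → |(e D Ch.triv : ℝ)| ≤ B) →
      (∀ (r : ℕ) (n : Fin r → ℤ) (H : Fin r → Subgroup L.G) (χ : ∀ i, Ch E (H i)),
        (∀ i, (χ i).Quad) → |((∑ i, n i * e (H i) (χ i) : ℤ) : ℝ)| ≤
          (kap (Nat.card L.G) : ℝ) * B *
            ((∑ g : L.G, ‖∑ i, (n i : ℂ) * ind (H i) ((χ i).map V.ι) g‖) / Nat.card L.G)) ∧
      ∀ (H : Subgroup L.G) (r : ℕ) (χ : Fin r → Ch E H), Function.Injective χ →
        (∀ i, (χ i).Quad) →
        ∑ i, (e H (χ i) : ℝ) ^ 2 ≤ ((kap (Nat.card L.G) : ℝ) * B) ^ 2 := by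
  have hchE : CharZero E := V.ι.charZero
  obtain ⟨s₀, h0⟩ := SF94.fin hk V C hC L
  have hex : ∀ (H : Subgroup L.G) (χ : Ch E H), ∃ x, L.Err C H χ x := by
    intro H χ
    obtain ⟨s, hs⟩ := sel_exists C L s₀ h0 H χ
    obtain ⟨a, hA⟩ := ha H χ
    exact ⟨_, s, a, hs, hA, rfl⟩
  choose e he using hex
  refine ⟨e, fun H χ x => ⟨fun h => err_unique C L s₀ h0 H χ _ _ h (he H χ), ?_⟩, fun B hB => ?_⟩
  · rintro rfl
    exact he H χ
  · exact main_ineq V.ι (f := fun H => e H Ch.triv)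
      (addv C L s₀ h0 _ fun H => he H Ch.triv)
      (fun H K t hK => err_conj C L s₀ h0 H K t hK _ _ (he H Ch.triv) (he K Ch.triv)) B hB e
      (fun H χ hχ => ⟨fun h => by rw [h], fun h =>
        err_quad C L s₀ h0 H χ hχ h _ _ _ (he (kerS χ) Ch.triv) (he H Ch.triv) (he H χ)⟩)

end BE57
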