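import Mathlib

/-!
# Functions of the subgroups of a finite group which are additive on permutation characters
A function `f` of the subgroups `H` of `G` such that `|H| f H` is additive in the indicator function
of `H` is the mean over `H` of one function `Φ` on `G`, which is bounded if `f` is bounded on the
cyclic subgroups. Bessel's inequality.
-/

set_option autoImplicit false

open scoped Classical

namespace BE57

variable {G : Type} [Group G] [Fintype G]

/-- `|B| f B` is additive in the indicator function of `B`. -/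
def Addv (f : Subgroup G → ℤ) : Prop :=
  ∀ m : Subgroup G → ℤ, (∀ y : G, ∑ B : Subgroup G, m B * (if y ∈ B then 1 else 0) = 0) →
    ∑ B : Subgroup G, m B * (Nat.card B : ℤ) * f B = 0

theorem Addv.rat {f : Subgroup G → ℤ} (hf : Addv f) (m : Subgroup G → ℚ)
    (hm : ∀ y : G, ∑ B : Subgroup G, m B * (if y ∈ B then (1 : ℚ) else 0) = 0) :
    ∑ B : Subgroup G, m B * (Nat.card B : ℚ) * (f B : ℚ) = 0 := by
  -- common denominator
  let N : ℕ := ∏ B : Subgroup G, (m B).den
  have hN : (N : ℚ) ≠ 0 := by
    have : N ≠ 0 := Finset.prod_ne_zero_iff.mpr fun B _ => (m B).den_nz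
    exact_mod_cast this
  have h1 : ∀ B : Subgroup G, ∃ z : ℤ, (z : ℚ) = N * m B := by
    intro B
    obtain ⟨c, hc⟩ : (m B).den ∣ N := Finset.dvd_prod_of_mem _ (Finset.mem_univ B)
    refine ⟨c * (m B).num, ?_⟩
    have h2 := Rat.num_div_den (m B)
    have h3 : ((m B).den : ℚ) ≠ 0 := by exact_mod_cast (m B).den_nz
    have h4 : m B * (m B).den = (m B).num := by
      rw [eq_comm, ← div_eq_iff h3, h2]
    rw [hc]
    push_cast
    rw [← h4]
    ring
  choose z hz using h1
  have h5 := hf z (fun y => by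
    have h6 : ((∑ B : Subgroup G, z B * (if y ∈ B then 1 else 0) : ℤ) : ℚ) = 0 := by
      push_cast
      have h7 : ∀ B : Subgroup G, (z B : ℚ) * (if y ∈ B then (1 : ℚ) else 0) =
          N * (m B * (if y ∈ B then (1 : ℚ) else 0)) := fun B => by rw [hz]; ring
      simp only [h7, ← Finset.mul_sum, hm y, mul_zero]
    exact_mod_cast h6)
  have h8 : ((∑ B : Subgroup G, z B * (Nat.card B : ℤ) * f B : ℤ) : ℚ) = 0 := by
    rw [h5]
    rfl
  push_cast at h8
  have h9 : ∀ B : Subgroup G, (z B : ℚ) * (Nat.card B : ℚ) * (f B : ℚ) =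
      N * (m B * (Nat.card B : ℚ) * (f B : ℚ)) := fun B => by rw [hz]; ring
  simp only [h9, ← Finset.mul_sum] at h8
  exact (mul_eq_zero.mp h8).resolve_left hN

theorem prod_dvd {n : ℕ} {S : Finset ℕ} (hS : S ⊆ n.primeFactors) (k : ℕ) :
    ∏ p ∈ S, p ∣ k ↔ ∀ p ∈ S, p ∣ k := by
  constructor
  · intro h p hp
    exact (Finset.dvd_prod_of_mem (fun p => p) hp).trans h
  · intro h
    refine Finset.prod_primes_dvd k (fun p hp => ?_) h
    exact (Nat.prime_of_mem_primeFactors (hS hp)).prime

theorem prod_dvd_self {n : ℕ} {S : Finset ℕ} (hS : S ⊆ n.primeFactors) :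
    ∏ p ∈ S, p ∣ n :=
  (prod_dvd hS n).mpr fun _ hp => Nat.dvd_of_mem_primeFactors (hS hp)

omit [Fintype G] in
theorem mem_zpowers_pow (g : G) (m k : ℕ) (hm : m ∣ orderOf g) :
    g ^ k ∈ Subgroup.zpowers (g ^ m) ↔ m ∣ k := by
  constructor
  · intro h
    obtain ⟨j, hj⟩ := Subgroup.mem_zpowers_iff.mp h
    have h1 : g ^ ((m : ℤ) * j) = g ^ (k : ℤ) := by
      rw [zpow_mul, zpow_natCast, zpow_natCast, hj]
    have h2 : (orderOf g : ℤ) ∣ (m : ℤ) * j - k := by
      rw [orderOf_dvd_iff_zpow_eq_one, zpow_sub, h1, mul_inv_cancel]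
    have h3 : (m : ℤ) ∣ (m : ℤ) * j - k := dvd_trans (by exact_mod_cast hm) h2
    have h4 : (m : ℤ) ∣ (k : ℤ) := by
      have := (dvd_mul_right (m : ℤ) j).sub h3
      simpa using this
    exact_mod_cast h4
  · rintro ⟨c, rfl⟩
    rw [pow_mul]
    exact Subgroup.pow_mem _ (Subgroup.mem_zpowers _) c

theorem zpowers_pow_eq (g : G) (k : ℕ) :
    Subgroup.zpowers (g ^ k) = Subgroup.zpowers g ↔ (orderOf g).Coprime k := by
  constructor
  · intro h
    have h1 : orderOf (g ^ k) = orderOf g := by
      rw [← Nat.card_zpowers, ← Nat.card_zpowers, h]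
    rw [orderOf_pow] at h1
    have h2 : 0 < orderOf g := orderOf_pos g
    have h3 : (orderOf g).gcd k ∣ orderOf g := Nat.gcd_dvd_left _ _
    obtain ⟨c, hc⟩ := h3
    have h4 : 0 < (orderOf g).gcd k := Nat.gcd_pos_of_pos_left _ h2
    have h5 : orderOf g / (orderOf g).gcd k = c := Nat.div_eq_of_eq_mul_right h4 hc
    rw [h5] at h1
    rw [Nat.Coprime]
    have h6 : (orderOf g).gcd k * orderOf g = 1 * orderOf g := by
      rw [one_mul]
      conv_rhs => rw [hc]
      rw [h1]
    exact Nat.eq_of_mul_eq_mul_right h2 h6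
  · intro h
    refine le_antisymm (Subgroup.zpowers_le.mpr (Subgroup.pow_mem _ (Subgroup.mem_zpowers _) k)) ?_
    rw [Subgroup.zpowers_le]
    obtain ⟨m, hm⟩ := exists_pow_eq_self_of_coprime h.symm
    have h1 : (g ^ k) ^ m ∈ Subgroup.zpowers (g ^ k) :=
      Subgroup.pow_mem _ (Subgroup.mem_zpowers _) m
    rwa [hm] at h1

/-- inclusion and exclusion -/
theorem incl_excl (g y : G) :
    ∑ S ∈ (orderOf g).primeFactors.powerset, (-1 : ℤ) ^ S.card *
      (if y ∈ Subgroup.zpowers (g ^ (∏ p ∈ S, p)) then 1 else 0) =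
    if Subgroup.zpowers y = Subgroup.zpowers g then 1 else 0 := by
  by_cases hy : y ∈ Subgroup.zpowers g
  · obtain ⟨k, rfl⟩ : ∃ k : ℕ, g ^ k = y := by
      rwa [← Submonoid.mem_powers_iff, mem_powers_iff_mem_zpowers (G := G)]
    set T := (orderOf g).primeFactors.filter fun p => p ∣ k with hT
    have h1 : ∀ S ∈ (orderOf g).primeFactors.powerset, ((-1 : ℤ) ^ S.card *
        (if g ^ k ∈ Subgroup.zpowers (g ^ (∏ p ∈ S, p)) then 1 else 0)) =
        if S ∈ T.powerset then (-1 : ℤ) ^ S.card else 0 := by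
      intro S hS
      rw [Finset.mem_powerset] at hS
      have h2 : (g ^ k ∈ Subgroup.zpowers (g ^ (∏ p ∈ S, p))) ↔ S ∈ T.powerset := by
        rw [mem_zpowers_pow g _ k (prod_dvd_self hS), prod_dvd hS, Finset.mem_powerset]
        constructor
        · intro h p hp
          exact Finset.mem_filter.mpr ⟨hS hp, h p hp⟩
        · intro h p hp
          exact (Finset.mem_filter.mp (h hp)).2
      by_cases h3 : S ∈ T.powerset
      · rw [if_pos h3, if_pos (h2.mpr h3), mul_one]
      · rw [if_neg h3, if_neg fun h => h3 (h2.mp h), mul_zero]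
    rw [Finset.sum_congr rfl h1, ← Finset.sum_filter]
    have h4 : (orderOf g).primeFactors.powerset.filter (fun S => S ∈ T.powerset) = T.powerset := by
      ext S
      simp only [Finset.mem_filter, Finset.mem_powerset]
      constructor
      · exact fun h => h.2
      · exact fun h => ⟨h.trans (Finset.filter_subset _ _), h⟩
    rw [h4, Finset.sum_powerset_neg_one_pow_card]
    have h5 : T = ∅ ↔ Subgroup.zpowers (g ^ k) = Subgroup.zpowers g := by
      rw [zpowers_pow_eq, Finset.filter_eq_empty_iff]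
      have hn : orderOf g ≠ 0 := (orderOf_pos g).ne'
      constructor
      · intro h
        rw [Nat.coprime_iff_isRelPrime, ← Nat.coprime_iff_isRelPrime]
        refine Nat.coprime_of_dvd fun p hp h1 h2 => h (Nat.mem_primeFactors.mpr ⟨hp, h1, hn⟩) h2
      · intro h p hp hpk
        have h6 := Nat.dvd_gcd (Nat.dvd_of_mem_primeFactors hp) hpk
        rw [h] at h6
        exact (Nat.prime_of_mem_primeFactors hp).one_lt.ne' (Nat.dvd_one.mp h6)
    by_cases h6 : T = ∅
    · rw [if_pos h6, if_pos (h5.mp h6)]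
    · rw [if_neg h6, if_neg fun h => h6 (h5.mpr h)]
  · have h1 : ¬ Subgroup.zpowers y = Subgroup.zpowers g := by
      intro h
      exact hy (h ▸ Subgroup.mem_zpowers y)
    rw [if_neg h1]
    refine Finset.sum_eq_zero fun S _ => ?_
    rw [if_neg, mul_zero]
    intro h
    exact hy (Subgroup.zpowers_le.mpr (Subgroup.pow_mem _ (Subgroup.mem_zpowers _) _) h)

/-- the number of generators -/
theorem card_gen (y : G) :
    (Finset.univ.filter fun g : G => Subgroup.zpowers y = Subgroup.zpowers g).card =
      (orderOf y).totient := by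
  have h1 := IsCyclic.card_orderOf_eq_totient (α := Subgroup.zpowers y)
    (d := Fintype.card (Subgroup.zpowers y)) dvd_rfl
  have h2 : Fintype.card (Subgroup.zpowers y) = orderOf y := Fintype.card_zpowers
  rw [h2] at h1
  rw [← h1]
  refine Finset.card_bij' (fun g hg => ⟨g, by
      rw [(Finset.mem_filter.mp hg).2]
      exact Subgroup.mem_zpowers g⟩) (fun a _ => (a : G)) ?_ ?_ ?_ ?_
  · intro g hg
    have h3 := (Finset.mem_filter.mp hg).2
    refine Finset.mem_filter.mpr ⟨Finset.mem_univ _, ?_⟩
    rw [Subgroup.orderOf_mk, ← Nat.card_zpowers, ← Nat.card_zpowers, h3]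
  · intro a ha
    have h3 := (Finset.mem_filter.mp ha).2
    refine Finset.mem_filter.mpr ⟨Finset.mem_univ _, ?_⟩
    symm
    refine Subgroup.eq_of_le_of_card_ge (Subgroup.zpowers_le.mpr a.2) ?_
    rw [Nat.card_zpowers, Nat.card_zpowers, Subgroup.orderOf_coe, h3]
  · intro g _
    rfl
  · intro a _
    rfl

/-- `φ (|g|) Φ g` -/
noncomputable def Psi (f : Subgroup G → ℤ) (g : G) : ℤ :=
  ∑ S ∈ (orderOf g).primeFactors.powerset, (-1 : ℤ) ^ S.card *
    ((Nat.card (Subgroup.zpowers (g ^ (∏ p ∈ S, p))) : ℤ) * f (Subgroup.zpowers (g ^ (∏ p ∈ S, p))))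

/-- the function `Φ` -/
noncomputable def Phi (f : Subgroup G → ℤ) (g : G) : ℚ := (Psi f g : ℚ) / ((orderOf g).totient : ℚ)

theorem tot_pos (g : G) : (0 : ℚ) < ((orderOf g).totient : ℚ) := by
  have : 0 < (orderOf g).totient := Nat.totient_pos.mpr (orderOf_pos g)
  exact_mod_cast this

/-- `f H` is the mean of `Φ` over `H`. -/
theorem mean {f : Subgroup G → ℤ} (hf : Addv f) (H : Subgroup G) :
    ∑ g : G, (if g ∈ H then Phi f g else 0) = (Nat.card H : ℚ) * (f H : ℚ) := by
  -- the coefficients
  let c : G → Subgroup G → ℤ := fun g B =>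
    ∑ S ∈ (orderOf g).primeFactors.powerset, (-1 : ℤ) ^ S.card *
      (if B = Subgroup.zpowers (g ^ (∏ p ∈ S, p)) then 1 else 0)
  have hc1 : ∀ g y : G, ∑ B : Subgroup G, (c g B : ℚ) * (if y ∈ B then (1 : ℚ) else 0) =
      if Subgroup.zpowers y = Subgroup.zpowers g then 1 else 0 := by
    intro g y
    have h1 := incl_excl g y
    have h2 : ((∑ S ∈ (orderOf g).primeFactors.powerset, (-1 : ℤ) ^ S.card *
      (if y ∈ Subgroup.zpowers (g ^ (∏ p ∈ S, p)) then 1 else 0) : ℤ) : ℚ) =
        ((if Subgroup.zpowers y = Subgroup.zpowers g then 1 else 0 : ℤ) : ℚ) := by rw [h1]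
    push_cast at h2
    rw [← h2]
    simp only [c]
    push_cast
    simp only [Finset.sum_mul]
    rw [Finset.sum_comm]
    refine Finset.sum_congr rfl fun S _ => ?_
    rw [Finset.sum_eq_single (Subgroup.zpowers (g ^ (∏ p ∈ S, p)))]
    · rw [if_pos rfl, mul_one]
    · intro B _ hB
      rw [if_neg hB, mul_zero, zero_mul]
    · intro h
      exact absurd (Finset.mem_univ _) h
  have hc2 : ∀ g : G, ∑ B : Subgroup G, (c g B : ℚ) * (Nat.card B : ℚ) * (f B : ℚ) = Psi f g := by
    intro g
    unfold Psi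
    simp only [c]
    push_cast
    simp only [Finset.sum_mul]
    rw [Finset.sum_comm]
    refine Finset.sum_congr rfl fun S _ => ?_
    rw [Finset.sum_eq_single (Subgroup.zpowers (g ^ (∏ p ∈ S, p)))]
    · rw [if_pos rfl, mul_one, mul_assoc]
    · intro B _ hB
      rw [if_neg hB, mul_zero, zero_mul, zero_mul]
    · intro h
      exact absurd (Finset.mem_univ _) h
  have h1 := hf.rat (fun B => (if B = H then (1 : ℚ) else 0) -
    ∑ g : G, (if g ∈ H then (c g B : ℚ) / ((orderOf g).totient : ℚ) else 0)) (fun y => by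
      simp only [sub_mul, Finset.sum_sub_distrib, Finset.sum_mul]
      rw [Finset.sum_comm (γ := Subgroup G)]
      have h2 : ∑ B : Subgroup G, (if B = H then (1 : ℚ) else 0) * (if y ∈ B then (1 : ℚ) else 0) =
          if y ∈ H then 1 else 0 := by
        rw [Finset.sum_eq_single H]
        · rw [if_pos rfl, one_mul]
        · intro B _ hB
          rw [if_neg hB, zero_mul]
        · intro h
          exact absurd (Finset.mem_univ _) h
      have h3 : ∀ g : G, ∑ B : Subgroup G,
          (if g ∈ H then (c g B : ℚ) / ((orderOf g).totient : ℚ) else 0) *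
            (if y ∈ B then (1 : ℚ) else 0) =
          if Subgroup.zpowers y = Subgroup.zpowers g then
            (if y ∈ H then 1 / ((orderOf y).totient : ℚ) else 0) else 0 := by
        intro g
        by_cases hg : g ∈ H
        · simp only [if_pos hg]
          have h4 : ∀ B : Subgroup G, (c g B : ℚ) / ((orderOf g).totient : ℚ) *
              (if y ∈ B then (1 : ℚ) else 0) = (1 / ((orderOf g).totient : ℚ)) *
                ((c g B : ℚ) * (if y ∈ B then (1 : ℚ) else 0)) := fun B => by ring
          simp only [h4, ← Finset.mul_sum, hc1 g y]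
          by_cases h5 : Subgroup.zpowers y = Subgroup.zpowers g
          · have h6 : y ∈ H := by
              have h7 : y ∈ Subgroup.zpowers g := h5 ▸ Subgroup.mem_zpowers y
              exact Subgroup.zpowers_le.mpr hg h7
            have h8 : orderOf y = orderOf g := by
              rw [← Nat.card_zpowers, ← Nat.card_zpowers, h5]
            rw [if_pos h5, if_pos h5, if_pos h6, mul_one, h8]
          · rw [if_neg h5, if_neg h5, mul_zero]
        · simp only [if_neg hg, zero_mul, Finset.sum_const_zero]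
          by_cases h5 : Subgroup.zpowers y = Subgroup.zpowers g
          · have h6 : y ∉ H := by
              intro h6
              have h7 : g ∈ Subgroup.zpowers y := h5 ▸ Subgroup.mem_zpowers g
              exact hg (Subgroup.zpowers_le.mpr h6 h7)
            rw [if_pos h5, if_neg h6]
          · rw [if_neg h5]
      rw [h2, Finset.sum_congr rfl fun g _ => h3 g, ← Finset.sum_filter, Finset.sum_const, card_gen,
        nsmul_eq_mul]
      have h4 := tot_pos y
      by_cases hy : y ∈ H
      · rw [if_pos hy, if_pos hy]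
        field_simp
        ring
      · rw [if_neg hy, if_neg hy]
        ring)
  simp only [sub_mul, Finset.sum_sub_distrib, Finset.sum_mul] at h1
  rw [Finset.sum_comm (γ := Subgroup G)] at h1
  have h2 : ∑ B : Subgroup G, (if B = H then (1 : ℚ) else 0) * (Nat.card B : ℚ) * (f B : ℚ) =
      (Nat.card H : ℚ) * (f H : ℚ) := by
    rw [Finset.sum_eq_single H]
    · rw [if_pos rfl, one_mul]
    · intro B _ hB
      rw [if_neg hB, zero_mul, zero_mul]
    · intro h
      exact absurd (Finset.mem_univ _) h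
  have h3 : ∀ g : G, ∑ B : Subgroup G,
      (if g ∈ H then (c g B : ℚ) / ((orderOf g).totient : ℚ) else 0) * (Nat.card B : ℚ) *
        (f B : ℚ) = if g ∈ H then Phi f g else 0 := by
    intro g
    by_cases hg : g ∈ H
    · simp only [if_pos hg]
      unfold Phi
      rw [← hc2 g, Finset.sum_div]
      refine Finset.sum_congr rfl fun B _ => ?_
      ring
    · simp only [if_neg hg, zero_mul, Finset.sum_const_zero]
  rw [h2, Finset.sum_congr rfl fun g _ => h3 g] at h1
  linarith

end BE57
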